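import Mathlib

/-!
# Values of polynomials and forbidden residue classes
-/

set_option autoImplicit false

namespace Pool.Agent.Q41.CP

open Finset Polynomial

/-- the residues `0 ≤ n < q` with `q ∣ f (n)` -/
noncomputable def roots (f : ℤ[X]) (q : ℕ) : Finset ℤ :=
  ((Finset.range q).filter (fun n : ℕ => (q : ℤ) ∣ f.eval (n : ℤ))).image (fun n : ℕ => (n : ℤ))

theorem mem_roots {f : ℤ[X]} {q : ℕ} {z : ℤ} :
    z ∈ roots f q ↔ 0 ≤ z ∧ z < q ∧ (q : ℤ) ∣ f.eval z := by
  unfold roots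
  rw [mem_image]
  constructor
  · rintro ⟨n, hn, rfl⟩
    rw [mem_filter, mem_range] at hn
    exact ⟨by positivity, by exact_mod_cast hn.1, hn.2⟩
  · rintro ⟨h1, h2, h3⟩
    refine ⟨z.toNat, ?_, Int.toNat_of_nonneg h1⟩
    rw [mem_filter, mem_range, Int.toNat_of_nonneg h1]
    exact ⟨by omega, h3⟩

/-- the number of roots modulo a prime is at most the degree -/
theorem roots_card {f : ℤ[X]} {q : ℕ} (hq : q.Prime) (hf : ∃ n : ℤ, ¬ (q : ℤ) ∣ f.eval n) :
    (roots f q).card ≤ f.natDegree := by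
  classical
  have : Fact q.Prime := ⟨hq⟩
  set g : (ZMod q)[X] := f.map (Int.castRingHom (ZMod q)) with hg
  have hev : ∀ n : ℤ, g.eval (n : ZMod q) = ((f.eval n : ℤ) : ZMod q) := by
    intro n
    rw [hg]
    simp
  have hg0 : g ≠ 0 := by
    intro h0
    obtain ⟨n, hn⟩ := hf
    apply hn
    rw [← ZMod.intCast_zmod_eq_zero_iff_dvd, ← hev, h0, eval_zero]
  have h1 : (roots f q).card ≤ g.roots.toFinset.card := by
    apply card_le_card_of_injOn (fun z : ℤ => (z : ZMod q))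
    · intro z hz
      rw [mem_coe, mem_roots] at hz
      rw [mem_coe, Multiset.mem_toFinset, mem_roots' , IsRoot.def]
      refine ⟨hg0, ?_⟩
      rw [hev, ZMod.intCast_zmod_eq_zero_iff_dvd]
      exact hz.2.2
    · intro a ha b hb hab
      rw [mem_coe, mem_roots] at ha hb
      have h2 : (a : ZMod q) = (b : ZMod q) := hab
      rw [ZMod.intCast_eq_intCast_iff] at h2
      have h3 := h2
      unfold Int.ModEq at h3
      rw [Int.emod_eq_of_lt ha.1 ha.2.1, Int.emod_eq_of_lt hb.1 hb.2.1] at h3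
      exact h3
  calc (roots f q).card ≤ g.roots.toFinset.card := h1
    _ ≤ Multiset.card g.roots := Multiset.toFinset_card_le _
    _ ≤ g.natDegree := card_roots' g
    _ ≤ f.natDegree := natDegree_map_le

/-- a value is divisible by `q` iff the argument is in the class of a root -/
theorem dvd_iff {f : ℤ[X]} {q : ℕ} (hq : 0 < q) (n : ℤ) :
    (q : ℤ) ∣ f.eval n ↔ ∃ e ∈ roots f q, (q : ℤ) ∣ n - e := by
  have h0 : (0 : ℤ) < q := by exact_mod_cast hq
  have key : ∀ a b : ℤ, (q : ℤ) ∣ a - b → ((q : ℤ) ∣ f.eval a ↔ (q : ℤ) ∣ f.eval b) := by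
    intro a b hab
    have h1 : (q : ℤ) ∣ f.eval a - f.eval b := hab.trans (Polynomial.sub_dvd_eval_sub a b f)
    exact (dvd_iff_dvd_of_dvd_sub h1)
  constructor
  · intro h
    refine ⟨n % q, ?_, Int.dvd_self_sub_emod⟩
    rw [mem_roots]
    refine ⟨Int.emod_nonneg _ h0.ne', Int.emod_lt_of_pos _ h0, ?_⟩
    rwa [← key n (n % q) Int.dvd_self_sub_emod]
  · rintro ⟨e, he, h1⟩
    rw [mem_roots] at he
    exact (key n e h1).2 he.2.2

/-- the size of the values -/
theorem eval_le {f : ℤ[X]} {r m : ℕ} {N : ℕ} (hN : 1 ≤ N) (hr : f.natDegree ≤ r) (hr1 : r + 1 ≤ N)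
    (hc : ∀ i, |f.coeff i| ≤ (N : ℤ) ^ m) {n : ℤ} (hn : |n| ≤ N) : |f.eval n| ≤ (N : ℤ) ^ (r + m + 1) := by
  have hN' : (1 : ℤ) ≤ N := by exact_mod_cast hN
  rw [Polynomial.eval_eq_sum_range' (Nat.lt_succ_of_le hr)]
  calc |∑ i ∈ Finset.range (r + 1), f.coeff i * n ^ i| ≤ ∑ i ∈ Finset.range (r + 1), |f.coeff i * n ^ i| :=
        Finset.abs_sum_le_sum_abs _ _
    _ ≤ ∑ i ∈ Finset.range (r + 1), (N : ℤ) ^ m * (N : ℤ) ^ r := by
        apply Finset.sum_le_sum
        intro i hi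
        rw [abs_mul, abs_pow]
        have h1 : |n| ^ i ≤ (N : ℤ) ^ i := pow_le_pow_left₀ (abs_nonneg _) hn i
        have h2 : (N : ℤ) ^ i ≤ (N : ℤ) ^ r := pow_le_pow_right₀ hN' (by
          rw [Finset.mem_range] at hi
          omega)
        exact mul_le_mul (hc i) (h1.trans h2) (by positivity) (by positivity)
    _ = ((r + 1 : ℕ) : ℤ) * ((N : ℤ) ^ m * (N : ℤ) ^ r) := by
        rw [Finset.sum_const, Finset.card_range, nsmul_eq_mul]
    _ ≤ (N : ℤ) * ((N : ℤ) ^ m * (N : ℤ) ^ r) := by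
        apply mul_le_mul_of_nonneg_right _ (by positivity)
        exact_mod_cast hr1
    _ = (N : ℤ) ^ (r + m + 1) := by ring

/-- a number `≤ X ^ s` has at most `t s` prime factors in a class `P` of primes larger than `X ^ (1/t)` -/
theorem length_le {a X t s : ℕ} (P : ℕ → Bool) (ht : 1 ≤ t) (hX : 2 ≤ X) (ha : a ≠ 0) (haX : a ≤ X ^ s)
    (hp : ∀ q : ℕ, q.Prime → q ∣ a → P q = true → (X : ℝ) ^ (1 / (t : ℝ)) < q) :
    (a.primeFactorsList.filter P).length ≤ t * s := by
  have hX1 : (1 : ℝ) < X := by exact_mod_cast (by omega : 1 < X)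
  have ht0 : (0 : ℝ) < t := by exact_mod_cast ht
  set y : ℝ := (X : ℝ) ^ (1 / (t : ℝ)) with hy
  have hy0 : 0 < y := by positivity
  have hgen : ∀ l : List ℕ, (∀ q ∈ l, y ≤ (q : ℝ)) → y ^ l.length ≤ ((l.prod : ℕ) : ℝ) := by
    intro l
    induction l with
    | nil => intro _; simp
    | cons b l ih =>
      intro h
      rw [List.length_cons, List.prod_cons, pow_succ, Nat.cast_mul, mul_comm]
      exact mul_le_mul (h b (by simp)) (ih fun q hq => h q (by simp [hq])) (by positivity) (by positivity)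
  have h1 : y ^ (a.primeFactorsList.filter P).length ≤ (((a.primeFactorsList.filter P).prod : ℕ) : ℝ) := by
    apply hgen
    intro q hq
    rw [List.mem_filter] at hq
    exact (hp q (Nat.prime_of_mem_primeFactorsList hq.1) (Nat.dvd_of_mem_primeFactorsList hq.1) hq.2).le
  have h2 : (a.primeFactorsList.filter P).prod ∣ a := by
    have h3 := (List.filter_sublist (p := P) (l := a.primeFactorsList)).prod_dvd_prod
    rwa [Nat.prod_primeFactorsList ha] at h3
  have h4 : (((a.primeFactorsList.filter P).prod : ℕ) : ℝ) ≤ (X : ℝ) ^ s := by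
    have := (Nat.le_of_dvd (Nat.pos_of_ne_zero ha) h2).trans haX
    exact_mod_cast this
  have h5 : (X : ℝ) ^ ((a.primeFactorsList.filter P).length / (t : ℝ)) ≤ (X : ℝ) ^ (s : ℝ) := by
    rw [Real.rpow_natCast]
    refine le_trans (le_of_eq ?_) (h1.trans h4)
    rw [hy, ← Real.rpow_natCast, ← Real.rpow_mul (by positivity)]
    congr 1
    ring
  have h6 := (Real.rpow_le_rpow_left_iff hX1).1 h5
  rw [div_le_iff₀ ht0] at h6
  have h7 : ((a.primeFactorsList.filter P).length : ℝ) ≤ ((t * s : ℕ) : ℝ) := by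
    push_cast
    linarith
  exact_mod_cast h7

end Pool.Agent.Q41.CP
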